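import Pool.Agent.Y522.Stm
import Pool.Agent.H664.Sard

/-!
# Morse-Sard for smooth real functions
-/

set_option autoImplicit false

open Set Filter Topology Metric Function MeasureTheory
open scoped Manifold ContDiff

noncomputable section

namespace Pool.Agent.Y67.SH

open Pool.Agent.Y522

/-- a smooth germ extends to a global smooth function -/
theorem exists_ext {G F : Type} [NormedAddCommGroup G] [NormedSpace ℝ G] [FiniteDimensional ℝ G]
    [NormedAddCommGroup F] [NormedSpace ℝ F]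
    {ψ : G → F} {x : G} (h : ∀ᶠ y in 𝓝 x, ContDiffAt ℝ ∞ ψ y) :
    ∃ Ψ : G → F, ContDiff ℝ ∞ Ψ ∧ Ψ =ᶠ[𝓝 x] ψ := by
  obtain ⟨r, hr, h2⟩ := Metric.eventually_nhds_iff_ball.1 h
  let b : ContDiffBump x := ⟨r / 4, r / 2, by positivity, by linarith⟩
  refine ⟨fun y => b y • ψ y, ?_, ?_⟩
  · rw [contDiff_iff_contDiffAt]
    intro y
    by_cases hy : y ∈ Metric.ball x r
    · exact (b.contDiff (n := (⊤ : ℕ∞))).contDiffAt.smul (h2 y hy)
    · have h3 : ∀ᶠ z in 𝓝 y, z ∉ Metric.closedBall x (r / 2) := by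
        apply (Metric.isClosed_closedBall.isOpen_compl).mem_nhds
        intro hz
        apply hy
        rw [Metric.mem_ball]
        rw [Metric.mem_closedBall] at hz
        linarith
      have h4 : (fun y => b y • ψ y) =ᶠ[𝓝 y] fun _ => 0 := by
        filter_upwards [h3] with z hz
        have h5 : b z = 0 := b.zero_of_le_dist (by
          rw [Metric.mem_closedBall, not_le] at hz
          exact hz.le)
        rw [h5, zero_smul]
      exact contDiffAt_const.congr_of_eventuallyEq h4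
  · filter_upwards [b.eventuallyEq_one] with y hy
    rw [hy]
    simp

/-- complete a non-zero linear form to linear coordinates -/
theorem exists_coord {m : ℕ} (l : E (m + 1) →L[ℝ] ℝ) (hl : l ≠ 0) :
    ∃ (L : E (m + 1) →L[ℝ] E m) (A : E (m + 1) ≃L[ℝ] E (m + 1)),
      ∀ z, A z = cn (l z) (L z) := by
  obtain ⟨v, hv⟩ : ∃ v, l v ≠ 0 := by
    by_contra hcon
    push Not at hcon
    exact hl (ContinuousLinearMap.ext hcon)
  have hfr : Module.finrank ℝ (LinearMap.ker (l : E (m + 1) →ₗ[ℝ] ℝ)) = Module.finrank ℝ (E m) := by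
    have h1 := LinearMap.finrank_range_add_finrank_ker (l : E (m + 1) →ₗ[ℝ] ℝ)
    have h2 : LinearMap.range (l : E (m + 1) →ₗ[ℝ] ℝ) = ⊤ := by
      rw [LinearMap.range_eq_top]
      intro t
      refine ⟨(t / l v) • v, ?_⟩
      change l ((t / l v) • v) = t
      rw [map_smul, smul_eq_mul, div_mul_cancel₀ _ hv]
    rw [h2, finrank_top, Module.finrank_self, finrank_euclideanSpace_fin] at h1
    rw [finrank_euclideanSpace_fin]
    omega
  let e : LinearMap.ker (l : E (m + 1) →ₗ[ℝ] ℝ) ≃ₗ[ℝ] E m := LinearEquiv.ofFinrankEq _ _ hfr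
  let P : E (m + 1) →ₗ[ℝ] LinearMap.ker (l : E (m + 1) →ₗ[ℝ] ℝ) :=
    LinearMap.codRestrict _ (LinearMap.id - (LinearMap.toSpanSingleton ℝ (E (m + 1)) ((l v)⁻¹ • v)).comp
      (l : E (m + 1) →ₗ[ℝ] ℝ)) (by
        intro z
        rw [LinearMap.mem_ker]
        simp [hv])
  let L : E (m + 1) →ₗ[ℝ] E m := e.toLinearMap.comp P
  let B : E (m + 1) →ₗ[ℝ] E (m + 1) :=
    { toFun := fun z => cn (l z) (L z)
      map_add' := fun x y => by
        ext i
        refine Fin.cases ?_ (fun i => ?_) i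
        · simp
        · simp
      map_smul' := fun c x => by
        ext i
        refine Fin.cases ?_ (fun i => ?_) i
        · simp
        · simp }
  have hinj : Function.Injective B := by
    rw [← LinearMap.ker_eq_bot, LinearMap.ker_eq_bot']
    intro z hz
    have h1 : cn (l z) (L z) = 0 := hz
    have h2 : l z = 0 := by
      have := congrArg (fun u : E (m + 1) => u 0) h1
      simpa using this
    have h3 : L z = 0 := by
      have := congrArg tl h1
      rw [tl_cn, map_zero] at this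
      exact this
    have h4 : P z = 0 := by
      have h5 : e (P z) = 0 := h3
      exact (LinearEquiv.map_eq_zero_iff e).1 h5
    have h6 : ((P z : LinearMap.ker (l : E (m + 1) →ₗ[ℝ] ℝ)) : E (m + 1)) = z := by
      change z - (LinearMap.toSpanSingleton ℝ (E (m + 1)) ((l v)⁻¹ • v)) (l z) = z
      rw [h2, map_zero, sub_zero]
    rw [h4] at h6
    exact h6.symm
  let A := (LinearEquiv.ofInjectiveEndo B hinj).toContinuousLinearEquiv
  exact ⟨LinearMap.toContinuousLinearMap L, A, fun z => rfl⟩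

/-- smooth parametrisation of a regular level set -/
theorem exists_param {m : ℕ} (w : E (m + 1) → ℝ) (hw : ContDiff ℝ ∞ w) (p : E (m + 1))
    (hd : fderiv ℝ w p ≠ 0) :
    ∃ γ : E m → E (m + 1), ContDiff ℝ ∞ γ ∧ ∀ᶠ q in 𝓝 p, w q = 0 → q ∈ range γ := by
  obtain ⟨L, A, hA⟩ := exists_coord (fderiv ℝ w p) hd
  set Φ : E (m + 1) → E (m + 1) := fun z => cn (w z) (L z) with hΦ
  have hΦe : Φ = fun z => w z • (e0 : E (m + 1)) + inc (L z) := by
    funext z
    rw [hΦ]
    simp only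
    rw [cn_eq, inc_apply]
  have hΦs : ContDiff ℝ ∞ Φ := by
    rw [hΦe]
    exact (hw.smul contDiff_const).add ((inc.comp L).contDiff)
  have hΦd : HasFDerivAt Φ (A : E (m + 1) →L[ℝ] E (m + 1)) p := by
    rw [hΦe]
    have h1 : HasFDerivAt w (fderiv ℝ w p) p := (hw.differentiable (by simp) p).hasFDerivAt
    have h2 := (h1.smul_const (e0 : E (m + 1))).add ((inc.comp L).hasFDerivAt (x := p))
    refine h2.congr_fderiv ?_
    ext1 z
    change (fderiv ℝ w p z) • (e0 : E (m + 1)) + inc (L z) = A z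
    rw [hA, cn_eq, inc_apply]
  have hLD : LD (m + 1) Φ p := LD_of_contDiffAt (Eventually.of_forall fun _ => hΦs.contDiffAt) A hΦd
  obtain ⟨Ψ, hpS, heq⟩ := hLD
  -- the germ
  set g₀ : E m → E (m + 1) := fun x => Ψ.invFun (cn 0 x) with hg₀
  by_cases hp : w p = 0
  swap
  · refine ⟨fun _ => 0, contDiff_const, ?_⟩
    filter_upwards [hw.continuous.continuousAt.eventually_ne hp] with q hq hq0
    exact absurd hq0 hq
  have hp2 : cn 0 (L p) ∈ Ψ.target := by
    have h1 : Ψ.toFun p = cn 0 (L p) := by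
      have := heq hpS
      rw [hΦ] at this
      simp only [hp] at this
      exact this.symm
    rw [← h1]
    exact Ψ.map_source hpS
  have hcn : Continuous (fun x : E m => (cn 0 x : E (m + 1))) := by
    have : (fun x : E m => (cn 0 x : E (m + 1))) = fun x => inc x := rfl
    rw [this]
    exact inc.continuous
  have hg : ∀ᶠ y in 𝓝 (L p), ContDiffAt ℝ ∞ g₀ y := by
    have h1 : ∀ᶠ y in 𝓝 (L p), (cn 0 y : E (m + 1)) ∈ Ψ.target :=
      hcn.continuousAt.eventually (Ψ.open_target.mem_nhds hp2)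
    filter_upwards [h1] with y hy
    have h2 : ContDiffAt ℝ ∞ Ψ.invFun (cn 0 y) := contMDiffAt_iff_contDiffAt.1
      ((Ψ.contMDiffOn_invFun _ hy).contMDiffAt (Ψ.open_target.mem_nhds hy))
    have h3 : ContDiffAt ℝ ∞ (fun x : E m => (inc x : E (m + 1))) y := inc.contDiff.contDiffAt
    exact ContDiffAt.comp y h2 h3
  obtain ⟨γ, hγ, hγe⟩ := exists_ext hg
  refine ⟨γ, hγ, ?_⟩
  have h1 : ∀ᶠ q in 𝓝 p, γ (L q) = g₀ (L q) := L.continuous.continuousAt.eventually hγe
  filter_upwards [h1, Ψ.open_source.mem_nhds hpS] with q hq hqS hq0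
  refine ⟨L q, ?_⟩
  rw [hq, hg₀]
  simp only
  have h2 : (cn 0 (L q) : E (m + 1)) = Ψ.toFun q := by
    have := heq hqS
    rw [hΦ] at this
    simp only [hq0] at this
    exact this
  rw [h2]
  exact Ψ.left_inv hqS

/-- Morse-Sard for global smooth functions: the set of critical values has dimension zero. -/
theorem sard_glob (n : ℕ) : ∀ f : E n → ℝ, ContDiff ℝ ∞ f → ∀ A : Set (E n),
    (∀ x ∈ A, fderiv ℝ f x = 0) → dimH (f '' A) ≤ 0 := by
  induction n with
  | zero =>
    intro f _ A _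
    have h1 : (f '' A).Subsingleton := by
      have : A.Subsingleton := Set.subsingleton_of_subsingleton
      exact this.image f
    rw [dimH_subsingleton h1]
  | succ m ih =>
    intro f hf A hA
    set g : E (m + 1) → (E (m + 1) →L[ℝ] ℝ) := fderiv ℝ f with hgdef
    have hg : ContDiff ℝ ∞ g := hf.fderiv_right (m := ∞) (by simp)
    have hfd : Differentiable ℝ f := hf.differentiable (by simp)
    -- flat points
    have hflat : dimH (f '' {p | p ∈ A ∧ ∀ i, iteratedFDeriv ℝ (i + 1) f p = 0}) ≤ 0 := by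
      have hbox : ∀ M : ℕ, dimH (f '' ({p | p ∈ A ∧ ∀ i, iteratedFDeriv ℝ (i + 1) f p = 0} ∩
          closedBall 0 M)) ≤ 0 := by
        intro M
        have hk : ∀ k : ℕ, dimH (f '' ({p | p ∈ A ∧ ∀ i, iteratedFDeriv ℝ (i + 1) f p = 0} ∩
            closedBall 0 M)) ≤ ((m + 1 : ℕ) : ENNReal) / ((k + 1 : ℕ) : ENNReal) := by
          intro k
          obtain ⟨C, hC, h1⟩ := Pool.Agent.H664.Sard.flat_taylor
            (isCompact_closedBall (0 : E (m + 1)) M) (convex_closedBall _ _) k g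
            (hg.of_le (by exact_mod_cast le_top))
          have h2 : ∀ x ∈ {p | p ∈ A ∧ ∀ i, iteratedFDeriv ℝ (i + 1) f p = 0} ∩ closedBall 0 M,
              ∀ y ∈ {p | p ∈ A ∧ ∀ i, iteratedFDeriv ℝ (i + 1) f p = 0} ∩ closedBall 0 (M : ℝ),
              dist (f x) (f y) ≤ C * dist x y ^ (k + 1) := by
            intro x hx y hy
            have h3 := Pool.Agent.H664.Sard.mvt_pow hfd (convex_closedBall (0 : E (m + 1)) M)
              hx.2 hC (n := k) (fun q hq => h1 x hx.2 (fun i _ => by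
                rw [← norm_eq_zero, hgdef, norm_iteratedFDeriv_fderiv, norm_eq_zero]
                exact hx.1.2 i) q hq) y hy.2
            rw [dist_comm (f x), dist_comm x, dist_eq_norm, dist_eq_norm]
            exact h3
          refine (Pool.Agent.H664.Sard.dimH_image_of_pow hC (Nat.succ_pos k) h2).trans ?_
          gcongr
          calc dimH ({p | p ∈ A ∧ ∀ i, iteratedFDeriv ℝ (i + 1) f p = 0} ∩ closedBall (0 : E (m + 1)) M)
              ≤ dimH (univ : Set (E (m + 1))) := dimH_mono (subset_univ _)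
            _ = ((m + 1 : ℕ) : ENNReal) := by rw [Real.dimH_univ_eq_finrank, finrank_euclideanSpace_fin]
        have hlim : Tendsto (fun k : ℕ => ((m + 1 : ℕ) : ENNReal) / ((k + 1 : ℕ) : ENNReal)) atTop
            (𝓝 0) := by
          have h1 : Tendsto (fun k : ℕ => ((m + 1 : ℕ) : ENNReal) / (k : ENNReal)) atTop (𝓝 0) :=
            ENNReal.Tendsto.const_div ENNReal.tendsto_nat_nhds_top
              (Or.inr (ENNReal.natCast_ne_top _)) |>.trans (by simp)
          exact (tendsto_add_atTop_iff_nat 1).2 h1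
        exact ge_of_tendsto' hlim hk
      have hsub : f '' {p | p ∈ A ∧ ∀ i, iteratedFDeriv ℝ (i + 1) f p = 0} ⊆
          ⋃ M : ℕ, f '' ({p | p ∈ A ∧ ∀ i, iteratedFDeriv ℝ (i + 1) f p = 0} ∩ closedBall 0 M) := by
        rintro _ ⟨x, hx, rfl⟩
        obtain ⟨M, hM⟩ := exists_nat_ge ‖x‖
        exact mem_iUnion.2 ⟨M, x, ⟨hx, by simpa using hM⟩, rfl⟩
      refine (dimH_mono hsub).trans ?_
      rw [dimH_iUnion]
      exact iSup_le hbox
    -- the strata
    have hstr : ∀ k : ℕ, dimH (f '' {p | p ∈ A ∧ (∀ i ≤ k, iteratedFDeriv ℝ (i + 1) f p = 0) ∧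
        iteratedFDeriv ℝ (k + 1 + 1) f p ≠ 0}) ≤ 0 := by
      intro k
      refine Pool.Agent.H664.Sard.dimH_image_le_of_local fun p hp => ?_
      obtain ⟨hpA, hp0, hne⟩ := hp
      obtain ⟨v, hv⟩ : ∃ v, iteratedFDeriv ℝ (k + 1 + 1) f p v ≠ 0 := by
        by_contra hcon
        push Not at hcon
        exact hne (ContinuousMultilinearMap.ext hcon)
      rw [iteratedFDeriv_succ_apply_left] at hv
      have hcd : ContDiff ℝ ∞ (iteratedFDeriv ℝ (k + 1) f) := by
        apply hf.iteratedFDeriv_right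
        exact_mod_cast le_top
      let T' : (ContinuousMultilinearMap ℝ (fun _ : Fin (k + 1) => E (m + 1)) ℝ) →L[ℝ] ℝ :=
        ContinuousMultilinearMap.apply ℝ (fun _ : Fin (k + 1) => E (m + 1)) ℝ (Fin.tail v)
      set w : E (m + 1) → ℝ := fun q => T' (iteratedFDeriv ℝ (k + 1) f q) with hw
      have hwc : ContDiff ℝ ∞ w := T'.contDiff.comp hcd
      have hw0 : ∀ q, iteratedFDeriv ℝ (k + 1) f q = 0 → w q = 0 := by
        intro q hq
        rw [hw]
        simp only
        rw [hq, map_zero]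
      have hwd : fderiv ℝ w p ≠ 0 := by
        have h1 : HasFDerivAt w (T'.comp (fderiv ℝ (iteratedFDeriv ℝ (k + 1) f) p)) p :=
          T'.hasFDerivAt.comp p ((hcd.differentiable (by simp) p).hasFDerivAt)
        rw [h1.fderiv]
        intro h2
        apply hv
        have h3 := congrArg (fun l : E (m + 1) →L[ℝ] ℝ => l (v 0)) h2
        exact h3
      obtain ⟨γ, hγ, h1⟩ := exists_param w hwc p hwd
      refine ⟨_, h1, ?_⟩
      have h2 : f '' ({p | p ∈ A ∧ (∀ i ≤ k, iteratedFDeriv ℝ (i + 1) f p = 0) ∧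
          iteratedFDeriv ℝ (k + 1 + 1) f p ≠ 0} ∩ {q | w q = 0 → q ∈ range γ}) ⊆
          (f ∘ γ) '' (γ ⁻¹' A) := by
        rintro _ ⟨q, ⟨hq1, hq2⟩, rfl⟩
        obtain ⟨x, hx⟩ := hq2 (hw0 q (hq1.2.1 k le_rfl))
        refine ⟨x, ?_, ?_⟩
        · change γ x ∈ A
          rw [hx]
          exact hq1.1
        · simp [hx]
      refine (dimH_mono h2).trans ?_
      refine ih (f ∘ γ) (hf.comp hγ) _ ?_
      intro x hx
      have h3 : HasFDerivAt (f ∘ γ) ((fderiv ℝ f (γ x)).comp (fderiv ℝ γ x)) x :=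
        (hfd (γ x)).hasFDerivAt.comp x ((hγ.differentiable (by simp) x).hasFDerivAt)
      have h4 : fderiv ℝ f (γ x) = 0 := hA (γ x) hx
      rw [h3.fderiv, h4, ContinuousLinearMap.zero_comp]
    have hcov : f '' A ⊆ (f '' {p | p ∈ A ∧ ∀ i, iteratedFDeriv ℝ (i + 1) f p = 0}) ∪
        ⋃ k : ℕ, f '' {p | p ∈ A ∧ (∀ i ≤ k, iteratedFDeriv ℝ (i + 1) f p = 0) ∧
        iteratedFDeriv ℝ (k + 1 + 1) f p ≠ 0} := by
      rintro _ ⟨x, hx, rfl⟩
      by_cases h : ∀ i, iteratedFDeriv ℝ (i + 1) f x = 0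
      · exact Or.inl ⟨x, ⟨hx, h⟩, rfl⟩
      · right
        push Not at h
        classical
        have h0 : iteratedFDeriv ℝ (0 + 1) f x = 0 := by
          have h1 : ‖iteratedFDeriv ℝ 0 g x‖ = ‖iteratedFDeriv ℝ (0 + 1) f x‖ := by
            rw [hgdef, norm_iteratedFDeriv_fderiv]
          rw [norm_iteratedFDeriv_zero, hA x hx, norm_zero] at h1
          exact norm_eq_zero.1 h1.symm
        have hfind := Nat.find_spec h
        have hmin : ∀ i < Nat.find h, iteratedFDeriv ℝ (i + 1) f x = 0 := by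
          intro i hi
          have := Nat.find_min h hi
          push Not at this
          exact this
        have hpos : Nat.find h ≠ 0 := by
          intro h1
          rw [h1] at hfind
          exact hfind h0
        obtain ⟨k, hk⟩ := Nat.exists_eq_succ_of_ne_zero hpos
        rw [hk] at hfind hmin
        exact mem_iUnion.2 ⟨k, x, ⟨hx, fun i hi => hmin i (by omega), hfind⟩, rfl⟩
    refine (dimH_mono hcov).trans ?_
    rw [dimH_union, dimH_iUnion]
    exact max_le hflat (iSup_le hstr)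

theorem volume_zero_of_dimH {s : Set ℝ} (h : dimH s ≤ 0) : volume s = 0 := by
  rw [← hausdorffMeasure_real]
  apply hausdorffMeasure_of_dimH_lt (d := 1)
  exact lt_of_le_of_lt h (by simp)

/-- local version -/
theorem sard_local (n : ℕ) (U : Set (E n)) (hU : IsOpen U) (f : E n → ℝ)
    (hf : ∀ x ∈ U, ContDiffAt ℝ ∞ f x) :
    dimH (f '' {x | x ∈ U ∧ fderiv ℝ f x = 0}) ≤ 0 := by
  refine Pool.Agent.H664.Sard.dimH_image_le_of_local fun p hp => ?_
  obtain ⟨F, hF, hFe⟩ := exists_ext (ψ := f) (x := p)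
    (Filter.mem_of_superset (hU.mem_nhds hp.1) fun x hx => hf x hx)
  obtain ⟨s, hs, hso, hps⟩ := _root_.mem_nhds_iff.1 hFe
  refine ⟨s, hso.mem_nhds hps, ?_⟩
  have h1 : f '' ({x | x ∈ U ∧ fderiv ℝ f x = 0} ∩ s) ⊆ F '' ({x | x ∈ U ∧ fderiv ℝ f x = 0} ∩ s) := by
    rintro _ ⟨x, hx, rfl⟩
    exact ⟨x, hx, hs hx.2⟩
  refine (dimH_mono h1).trans (sard_glob n F hF _ ?_)
  rintro x ⟨hx, hxs⟩
  have h2 : F =ᶠ[𝓝 x] f := Filter.mem_of_superset (hso.mem_nhds hxs) fun y hy => hs hy
  rw [h2.fderiv_eq]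
  exact hx.2

theorem sard : StSard := by
  intro n U hU f hf
  exact volume_zero_of_dimH (sard_local n U hU f hf)

theorem sardM : StSardM := by
  intro n X _ _ _ _ f hf
  -- countably many charts
  obtain ⟨t, htc, hcov⟩ := TopologicalSpace.countable_cover_nhds
    (f := fun x : X => (chartAt (E n) x).source) (fun x => chart_source_mem_nhds (E n) x)
  have hsm : ∀ x₀ : X, ∀ z ∈ (chartAt (E n) x₀).target,
      ContDiffAt ℝ ∞ (fun z => f ((chartAt (E n) x₀).symm z)) z := by
    intro x₀ z hz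
    have h1 : ContMDiffAt (𝓡 n) (𝓡 n) ∞ (chartAt (E n) x₀).symm z :=
      contMDiffAt_symm_of_mem_maximalAtlas (IsManifold.chart_mem_maximalAtlas x₀) hz
    have h2 : ContMDiffAt (𝓡 n) 𝓘(ℝ, ℝ) ∞ (f ∘ (chartAt (E n) x₀).symm) z :=
      (hf _).comp z h1
    exact contMDiffAt_iff_contDiffAt.1 h2
  have hsub : f '' {x | mfderiv (𝓡 n) 𝓘(ℝ, ℝ) f x = 0} ⊆ ⋃ x₀ ∈ t,
      (fun z => f ((chartAt (E n) x₀).symm z)) ''
        {z | z ∈ (chartAt (E n) x₀).target ∧
          fderiv ℝ (fun z => f ((chartAt (E n) x₀).symm z)) z = 0} := by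
    rintro _ ⟨x, hx, rfl⟩
    have hx' : mfderiv (𝓡 n) 𝓘(ℝ, ℝ) f x = 0 := hx
    have hxu : x ∈ ⋃ x₀ ∈ t, (chartAt (E n) x₀).source := by
      rw [hcov]
      exact mem_univ x
    obtain ⟨x₀, hx₀, hxs⟩ := mem_iUnion₂.1 hxu
    refine mem_iUnion₂.2 ⟨x₀, hx₀, chartAt (E n) x₀ x, ⟨(chartAt (E n) x₀).map_source hxs, ?_⟩, ?_⟩
    · have hz := (chartAt (E n) x₀).map_source hxs
      have h1 : MDifferentiableAt (𝓡 n) (𝓡 n) (chartAt (E n) x₀).symm (chartAt (E n) x₀ x) :=
        (contMDiffAt_symm_of_mem_maximalAtlas (n := ∞) (IsManifold.chart_mem_maximalAtlas x₀)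
          hz).mdifferentiableAt (by simp)
      have h2 : MDifferentiableAt (𝓡 n) 𝓘(ℝ, ℝ) f ((chartAt (E n) x₀).symm (chartAt (E n) x₀ x)) :=
        (hf _).mdifferentiableAt (by simp)
      have h3 := mfderiv_comp (chartAt (E n) x₀ x) h2 h1
      have h4 : mfderiv (𝓡 n) 𝓘(ℝ, ℝ) f ((chartAt (E n) x₀).symm (chartAt (E n) x₀ x)) = 0 := by
        rw [(chartAt (E n) x₀).left_inv hxs]
        exact hx'
      rw [h4, mfderiv_eq_fderiv] at h3
      change fderiv ℝ (f ∘ (chartAt (E n) x₀).symm) (chartAt (E n) x₀ x) = 0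
      rw [h3]
      exact ContinuousLinearMap.zero_comp _
    · simp only
      rw [(chartAt (E n) x₀).left_inv hxs]
  refine measure_mono_null hsub ?_
  refine (measure_biUnion_null_iff htc).2 fun x₀ _ => ?_
  exact sard n (chartAt (E n) x₀).target (chartAt (E n) x₀).open_target _ fun z hz => hsm x₀ z hz

end Pool.Agent.Y67.SH
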